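import Pool.Agent.Helper26.OB.Defs

/-!
# OB, block RP: residues are periodic under Frobenius
-/

set_option autoImplicit false

namespace Pool.Agent.Helper26.OB

open Pool.Agent.Helper61.TH Pool.Agent.Helper87.FK

noncomputable section

/-- the image of a `p`-adic integer in the residue field is fixed by Frobenius -/
theorem mk_pow_p98 (p : ℕ) [Fact p.Prime] (a : ℤ_[p]) :
    (Ideal.Quotient.mk (mm p) (algebraMap ℤ_[p] (Oc p) a)) ^ p =
      Ideal.Quotient.mk (mm p) (algebraMap ℤ_[p] (Oc p) a) := by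
  have := charP_kk p
  obtain ⟨n, -, hn⟩ := PadicInt.exists_mem_range (p := p) a
  rw [PadicInt.maximalIdeal_eq_span_p, Ideal.mem_span_singleton] at hn
  obtain ⟨b, hb⟩ := hn
  have h1 : Ideal.Quotient.mk (mm p) (algebraMap ℤ_[p] (Oc p) a) = (n : kk p) := by
    have h2 : a = n + p * b := by rw [← hb]; ring
    have h3 : Ideal.Quotient.mk (mm p) (p : Oc p) = 0 := Ideal.Quotient.eq_zero_iff_mem.2 p_mem_mm
    rw [map_natCast] at h3
    rw [h2, map_add, map_add, map_mul, map_mul, map_natCast, map_natCast, map_natCast, map_natCast,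
      h3, zero_mul, add_zero]
  rw [h1, ← frobenius_def, map_natCast]

/-- **RP**: residues are periodic under Frobenius -/
theorem res_per (p : ℕ) [Fact p.Prime] (z : PadicAlgCl p) (hz : ‖z‖ ≤ 1) :
    ∃ n, 1 ≤ n ∧ ‖z ^ p ^ n - z‖ < 1 := by
  classical
  have := charP_kk p
  have hz1 : z ∈ Oc p := mem_Oc.2 hz
  have hz2 : IsIntegral ℤ_[p] z := hz1
  obtain ⟨P, hP, h0⟩ := hz2
  let φ : ℤ_[p] →+* kk p := (Ideal.Quotient.mk (mm p)).comp (algebraMap ℤ_[p] (Oc p))
  let w : kk p := Ideal.Quotient.mk (mm p) ⟨z, hz1⟩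
  set Q : Polynomial (kk p) := P.map φ with hQ
  have hQ0 : Q ≠ 0 := (hP.map φ).ne_zero
  have hw : Q.eval w = 0 := by
    rw [hQ, Polynomial.eval_map]
    have h1 : P.eval₂ (algebraMap ℤ_[p] (Oc p)) ⟨z, hz1⟩ = 0 := by
      apply Subtype.ext
      have h2 := Polynomial.hom_eval₂ P (algebraMap ℤ_[p] (Oc p)) (algebraMap (Oc p) (PadicAlgCl p))
        ⟨z, hz1⟩
      rw [← IsScalarTower.algebraMap_eq] at h2
      exact h2.trans h0
    have h3 := Polynomial.hom_eval₂ P (algebraMap ℤ_[p] (Oc p)) (Ideal.Quotient.mk (mm p)) ⟨z, hz1⟩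
    rw [h1, map_zero] at h3
    exact h3.symm
  have hfix : Q.map (frobenius (kk p) p) = Q := by
    ext i
    rw [Polynomial.coeff_map, hQ, Polynomial.coeff_map, frobenius_def]
    exact mk_pow_p98 p (P.coeff i)
  have hstep : ∀ x : kk p, Q.eval x = 0 → Q.eval (x ^ p) = 0 := by
    intro x hx
    have h1 := Polynomial.eval_map_apply (frobenius (kk p) p) (p := Q) x
    rw [hfix, hx, map_zero, frobenius_def] at h1
    exact h1
  have hall : ∀ i : ℕ, Q.eval (w ^ p ^ i) = 0 := by
    intro i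
    induction i with
    | zero => rw [pow_zero, pow_one]; exact hw
    | succ i ih => rw [pow_succ, pow_mul]; exact hstep _ ih
  have hmaps : ∀ i ∈ (Set.univ : Set ℕ), w ^ p ^ i ∈ (Q.roots.toFinset : Set (kk p)) := by
    intro i _
    rw [Finset.mem_coe, Multiset.mem_toFinset, Polynomial.mem_roots hQ0, Polynomial.IsRoot.def]
    exact hall i
  obtain ⟨i, -, j, -, hij, h⟩ := Set.Infinite.exists_ne_map_eq_of_mapsTo Set.infinite_univ hmaps
    (Finset.finite_toSet _)
  wlog hlt : i < j generalizing i j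
  · exact this j i (Ne.symm hij) h.symm (lt_of_le_of_ne (not_lt.1 hlt) (Ne.symm hij))
  refine ⟨j - i, by omega, ?_⟩
  have h1 : w = w ^ p ^ (j - i) := by
    apply iterateFrobenius_inj (kk p) p i
    rw [iterateFrobenius_def, iterateFrobenius_def, ← pow_mul, ← pow_add, h]
    congr 2
    omega
  have h2 : Ideal.Quotient.mk (mm p) (⟨z, hz1⟩ ^ p ^ (j - i)) = Ideal.Quotient.mk (mm p) ⟨z, hz1⟩ := by
    rw [map_pow]
    exact h1.symm
  rw [Ideal.Quotient.eq, mem_mm] at h2
  exact h2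

end

end Pool.Agent.Helper26.OB
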