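import Pool.Agent.Helper26.OB.Defs

/-!
# OB, block T2: a root of unity of order `p ^ N - 1`
-/

set_option autoImplicit false

namespace Pool.Agent.Helper26.OB

open Pool.Agent.Helper61.TH Pool.Agent.Helper87.FK

noncomputable section

/-- **T2**: a root of unity of order `p ^ N - 1` -/
theorem unity (p : ℕ) [Fact p.Prime] (N : ℕ) (hN : 1 ≤ N) : ∃ ζ : PadicAlgCl p, ‖ζ‖ ≤ 1 ∧
    ‖ζ ^ p ^ N - ζ‖ < 1 ∧ ∀ m : ℕ, 1 ≤ m → ‖ζ ^ p ^ m - ζ‖ < 1 → N ∣ m := by
  have hp : p.Prime := Fact.out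
  have hpN : 2 ≤ p ^ N := le_trans hp.two_le (Nat.le_self_pow (by omega) p)
  obtain ⟨n, hn⟩ : ∃ n, p ^ N = n + 1 := ⟨p ^ N - 1, by omega⟩
  have hn1 : 1 ≤ n := by omega
  have hn0 : n ≠ 0 := by omega
  have : NeZero n := ⟨hn0⟩
  have : NeZero (n : PadicAlgCl p) := ⟨by exact_mod_cast hn0⟩
  obtain ⟨ζ, hζ⟩ := HasEnoughRootsOfUnity.exists_primitiveRoot (PadicAlgCl p) n
  have hζ1 : ‖ζ‖ = 1 := by
    have h := congrArg norm hζ.pow_eq_one
    rw [norm_pow, norm_one] at h
    exact (pow_eq_one_iff_of_nonneg (norm_nonneg _) hn0).1 h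
  refine ⟨ζ, hζ1.le, ?_, ?_⟩
  · rw [hn, pow_succ, hζ.pow_eq_one, one_mul, sub_self, norm_zero]
    exact one_pos
  · intro m hm h
    have hpm : 2 ≤ p ^ m := le_trans hp.two_le (Nat.le_self_pow (by omega) p)
    obtain ⟨k, hk⟩ : ∃ k, p ^ m = k + 1 := ⟨p ^ m - 1, by omega⟩
    set η : PadicAlgCl p := ζ ^ k with hη
    have hη1 : ‖η‖ = 1 := by rw [hη, norm_pow, hζ1, one_pow]
    have hηn : η ^ n = 1 := by rw [hη, ← pow_mul, mul_comm, pow_mul, hζ.pow_eq_one, one_pow]
    have h2 : ‖η - 1‖ < 1 := by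
      have h3 : ζ ^ p ^ m - ζ = (η - 1) * ζ := by rw [hk, pow_succ, hη]; ring
      rw [h3, norm_mul, hζ1, mul_one] at h
      exact h
    have hη2 : η = 1 := by
      by_contra hne
      have h4 : ∑ i ∈ Finset.range n, η ^ i = 0 := by
        have h5 := geom_sum_mul η n
        rw [hηn, sub_self] at h5
        exact (mul_eq_zero.1 h5).resolve_right (sub_ne_zero.2 hne)
      let e : Oc p := ⟨η, mem_Oc.2 hη1.le⟩
      have h6 : ∑ i ∈ Finset.range n, e ^ i = 0 := by
        apply Subtype.ext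
        push_cast
        exact h4
      have h7 : Ideal.Quotient.mk (mm p) e = 1 := by
        rw [← map_one (Ideal.Quotient.mk (mm p)), Ideal.Quotient.eq, mem_mm]
        push_cast
        exact h2
      have h8 := congrArg (Ideal.Quotient.mk (mm p)) h6
      rw [map_sum, map_zero] at h8
      simp only [map_pow, h7, one_pow, Finset.sum_const, Finset.card_range, nsmul_eq_mul, mul_one] at h8
      have := charP_kk p
      have h9 : p ∣ n := (CharP.cast_eq_zero_iff (kk p) p n).1 h8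
      have h10 : p ∣ n + 1 := hn ▸ dvd_pow_self p (by omega)
      have h11 : p ∣ 1 := (Nat.dvd_add_right h9).1 h10
      exact hp.one_lt.ne' (Nat.dvd_one.1 h11)
    have h12 : n ∣ k := by
      rw [← hζ.pow_eq_one_iff_dvd, ← hη]
      exact hη2
    have h13 : n = p ^ N - 1 := by omega
    have h14 : k = p ^ m - 1 := by omega
    have h15 := Nat.pow_sub_one_gcd_pow_sub_one p N m
    rw [← h13, ← h14, Nat.gcd_eq_left h12, h13] at h15
    have h16 : p ^ N = p ^ Nat.gcd N m := by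
      have := Nat.one_le_pow (Nat.gcd N m) p hp.pos
      omega
    have h17 : N = Nat.gcd N m := Nat.pow_right_injective hp.two_le h16
    rw [h17]
    exact Nat.gcd_dvd_right N m

end

end Pool.Agent.Helper26.OB
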